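import Pool.Agent.H69.LQ.Lib
import Pool.Agent.H69.LQ.Targets1

/-! K1: the kernel of the Newton potential. -/

set_option autoImplicit false

open MeasureTheory Metric Set
open scoped ENNReal
open Pool.Agent.H85.LK (E adm lam Ann)
open Pool.Agent.H69.LQ

namespace Pool.Agent.H37.LQ1

theorem K1_cancel (N : ℕ) (y : ℝ) (hy : y ≠ 0) : y ^ (N - 1) • (y ^ (N - 1))⁻¹ = (1 : ℝ) := by
  rw [smul_eq_mul, mul_inv_cancel₀ (pow_ne_zero _ hy)]

theorem pf_K1 (hMP : T_MP) : T_K1 := by
  intro N hN
  obtain ⟨_, har, har2, _⟩ := hMP N hN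
  have hfin : Module.finrank ℝ (E N) = N := finrank_euclideanSpace_fin
  have : Nontrivial (E N) := by
    apply Module.nontrivial_of_finrank_pos (R := ℝ)
    rw [hfin]
    omega
  refine ⟨?_, ?_, ?_⟩
  · intro i z
    unfold kn
    have h1 : |z i| ≤ ‖z‖ := by
      have := PiLp.norm_apply_le z i
      rwa [Real.norm_eq_abs] at this
    rcases eq_or_lt_of_le (norm_nonneg z) with h0 | h0
    · rw [← h0] at h1 ⊢
      have h2 : z i = 0 := abs_nonpos_iff.1 h1
      rw [h2, zero_div, abs_zero]
      positivity
    · rw [abs_div, abs_of_pos (by positivity : 0 < ar N * ‖z‖ ^ N), div_le_iff₀ (by positivity)]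
      have h3 : ‖z‖ ^ N = ‖z‖ ^ (N - 1) * ‖z‖ := by
        rw [← pow_succ]
        congr 1
        omega
      have h4 : (ar N)⁻¹ * (‖z‖ ^ (N - 1))⁻¹ * (ar N * ‖z‖ ^ N) = ‖z‖ := by
        rw [h3]
        have h5 : ‖z‖ ^ (N - 1) ≠ 0 := by positivity
        field_simp
      rw [h4]
      exact h1
  · intro i
    unfold kn
    have h1 : Measurable fun z : E N => z i := (EuclideanSpace.proj i).continuous.measurable
    exact h1.div (measurable_const.mul (measurable_norm.pow_const _))
  · intro R hR
    constructor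
    · refine (integrableOn_fun_norm_addHaar (volume : Measure (E N))
        (f := fun t : ℝ => (t ^ (N - 1))⁻¹) (r := R)).2 ?_
      rw [hfin]
      have h2 : IntegrableOn (fun _ : ℝ => (1 : ℝ)) (Ioo 0 R) := by
        rw [integrableOn_const_iff]
        right
        exact measure_Ioo_lt_top
      exact h2.congr_fun (fun y hy => (K1_cancel N y hy.1.ne').symm) measurableSet_Ioo
    · have h1 : ∫ z in ball (0 : E N) R, (‖z‖ ^ (N - 1))⁻¹ =
          ∫ z : E N, (Iio R).indicator (fun t : ℝ => (t ^ (N - 1))⁻¹) ‖z‖ := by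
        rw [← integral_indicator measurableSet_ball]
        apply integral_congr_ae
        filter_upwards with z
        by_cases hz : ‖z‖ < R
        · rw [indicator_of_mem (by simpa using hz), indicator_of_mem (by simpa using hz)]
        · rw [indicator_of_notMem (by simpa using hz), indicator_of_notMem (by simpa using hz)]
      rw [h1, integral_fun_norm_addHaar volume, hfin]
      have h2 : ∫ y in Ioi (0 : ℝ), y ^ (N - 1) • (Iio R).indicator (fun t : ℝ => (t ^ (N - 1))⁻¹) y
          = R := by
        have h3 : ∫ y in Ioi (0 : ℝ), y ^ (N - 1) •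
            (Iio R).indicator (fun t : ℝ => (t ^ (N - 1))⁻¹) y =
            ∫ y in Ioi (0 : ℝ), (Iio R).indicator (fun _ : ℝ => (1 : ℝ)) y := by
          refine setIntegral_congr_fun measurableSet_Ioi fun y hy => ?_
          by_cases hy2 : y ∈ Iio R
          · simp only [indicator_of_mem hy2]
            exact K1_cancel N y (ne_of_gt hy)
          · simp only [indicator_of_notMem hy2, smul_zero]
        rw [h3, setIntegral_indicator measurableSet_Iio, setIntegral_const, smul_eq_mul, mul_one,
          Ioi_inter_Iio, Real.volume_real_Ioo_of_le hR.le, sub_zero]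
      rw [h2, har2, nsmul_eq_mul, smul_eq_mul, mul_assoc]

end Pool.Agent.H37.LQ1
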